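import Pool.Agent.H31.DP.Targets
import Pool.Agent.H24.T2.CubCS

/-!
Module DG of the project DP on `MP_c59857_nt`: the number of cubes and of degenerate cubes.
-/

set_option autoImplicit false

open Finset

namespace Pool.Agent.H55.DP

open Pool.Agent.H31.DP
open Pool.Agent.H24.T2 (box cub box_card mem_box cub_subset)

/-- the points of the box with a fixed coordinate equal to `0` -/
theorem face_card (n X : ℕ) (i : Fin n) :
    (((box n X).filter (fun t => t i = 0)).card : ℝ) ≤ (2 * X + 1 : ℝ) ^ (n - 1) := by
  classical
  have hsub : (box n X).filter (fun t => t i = 0) ⊆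
      Fintype.piFinset (fun j => if j = i then ({0} : Finset ℤ) else Finset.Icc (-(X : ℤ)) X) := by
    intro t ht
    rw [Finset.mem_filter, mem_box] at ht
    rw [Fintype.mem_piFinset]
    intro j
    split_ifs with h
    · rw [h, Finset.mem_singleton]
      exact ht.2
    · rw [Finset.mem_Icc, ← abs_le]
      exact ht.1 j
  have hc : ∀ j : Fin n, (if j = i then ({0} : Finset ℤ) else Finset.Icc (-(X : ℤ)) X).card =
      if j = i then 1 else 2 * X + 1 := by
    intro j
    split_ifs
    · exact Finset.card_singleton 0
    · rw [Int.card_Icc]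
      omega
  have hcard : (Fintype.piFinset (fun j : Fin n =>
      if j = i then ({0} : Finset ℤ) else Finset.Icc (-(X : ℤ)) X)).card =
      (2 * X + 1) ^ (n - 1) := by
    rw [Fintype.card_piFinset, Finset.prod_congr rfl (fun j _ => hc j)]
    rw [← Finset.mul_prod_erase Finset.univ _ (Finset.mem_univ i), if_pos rfl, one_mul]
    rw [Finset.prod_congr rfl (g := fun _ => 2 * X + 1)
      (fun j hj => if_neg (Finset.ne_of_mem_erase hj))]
    rw [Finset.prod_const, Finset.card_erase_of_mem (Finset.mem_univ i), Finset.card_univ,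
      Fintype.card_fin]
  have h1 := Finset.card_le_card hsub
  rw [hcard] at h1
  exact_mod_cast h1

theorem pf_DG : StatementDG := by
  classical
  intro X n A _
  have hle : ∀ t : Fin n → ℤ, ((cub n A t).card : ℝ) ≤ A.card := fun t => by
    exact_mod_cast Finset.card_le_card (cub_subset n A t)
  refine ⟨?_, ?_⟩
  · refine (Finset.sum_le_sum (fun t _ => hle t)).trans ?_
    rw [Finset.sum_const, nsmul_eq_mul, box_card, mul_comm]
  · refine (Finset.sum_le_sum (fun t _ => hle t)).trans ?_
    rw [Finset.sum_const, nsmul_eq_mul]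
    have hU : (box n X).filter (fun t => ∃ i, t i = 0) ⊆
        Finset.univ.biUnion (fun i : Fin n => (box n X).filter (fun t => t i = 0)) := by
      intro t ht
      rw [Finset.mem_filter] at ht
      obtain ⟨h1, i, hi⟩ := ht
      rw [Finset.mem_biUnion]
      exact ⟨i, Finset.mem_univ i, Finset.mem_filter.2 ⟨h1, hi⟩⟩
    have h2 : (((box n X).filter (fun t => ∃ i, t i = 0)).card : ℝ) ≤
        n * (2 * X + 1 : ℝ) ^ (n - 1) := by
      have h3 := (Finset.card_le_card hU).trans Finset.card_biUnion_le
      have h4 : (((box n X).filter (fun t => ∃ i, t i = 0)).card : ℝ) ≤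
          ∑ i : Fin n, (((box n X).filter (fun t => t i = 0)).card : ℝ) := by
        exact_mod_cast h3
      refine h4.trans ((Finset.sum_le_sum (fun i _ => face_card n X i)).trans ?_)
      rw [Finset.sum_const, Finset.card_univ, Fintype.card_fin, nsmul_eq_mul]
    calc (((box n X).filter (fun t => ∃ i, t i = 0)).card : ℝ) * (A.card : ℝ)
        ≤ n * (2 * X + 1 : ℝ) ^ (n - 1) * A.card :=
          mul_le_mul_of_nonneg_right h2 (Nat.cast_nonneg _)
      _ = n * A.card * (2 * X + 1 : ℝ) ^ (n - 1) := by ring

end Pool.Agent.H55.DP
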